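import Pool.Agent.L5helper9.Fin1

/-!
# The abc conjecture for finite subsets of the projective line over a number field: asymptotic formula for the number
of the points of all heights, ordered by their truncated counting function, with the law of the defect

`K` is a number field of degree `d`, `T` a finite set of primes, `α_1, …, α_q` are `q ≥ 3` distinct points of the
projective line over `K`.
-/

set_option autoImplicit false

namespace Pool.Agent.Results.MP_4d5ce1_nt.AllHeightsLaw

open NumberField IsDedekindDomain Filter Topology MeasureTheory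

variable {K : Type} [Field K] [NumberField K]

/-- the absolute logarithmic height of a point (the height of Mathlib is relative to `K`) -/
noncomputable def height (P : Projectivization K (Fin 2 → K)) : ℝ :=
  Height.logHeight P.rep / (Module.finrank ℚ K : ℝ)

/-- the sum over the primes `v ∉ T` and over `l` of the truncated local heights
`λ⁽¹⁾_v(α_l, x) = min (λ_v(α_l, x), log N(v) / d)` -/
noncomputable def counting (T : Set (HeightOneSpectrum (𝓞 K))) {q : ℕ} (α : Fin q → Fin 2 → K)
    (x : Fin 2 → K) : ℝ :=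
  ∑ᶠ (v : HeightOneSpectrum (𝓞 K)) (_ : v ∉ T), ∑ l : Fin q,
    min
      (Real.log
          (max (FinitePlace.mk v (x 0)) (FinitePlace.mk v (x 1)) *
            max (FinitePlace.mk v (α l 0)) (FinitePlace.mk v (α l 1)) /
            FinitePlace.mk v (x 0 * α l 1 - x 1 * α l 0)) /
        (Module.finrank ℚ K : ℝ))
      (Real.log (Ideal.absNorm v.asIdeal : ℝ) / (Module.finrank ℚ K : ℝ))

/-- the defect `q h(P) - ∑_{v ∉ T} ∑_l λ⁽¹⁾_v(α_l, P)` -/
noncomputable def defect (T : Set (HeightOneSpectrum (𝓞 K))) {q : ℕ} (α : Fin q → Fin 2 → K)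
    (P : Projectivization K (Fin 2 → K)) : ℝ :=
  q * height P - counting T α P.rep

/-- the points `P` of the projective line over `K`, different from all the `α_l`, with
`∑_{v ∉ T} ∑_l λ⁽¹⁾_v(α_l, P) ≤ log X`; there is no condition on the height -/
def Points (T : Set (HeightOneSpectrum (𝓞 K))) {q : ℕ} (α : Fin q → Fin 2 → K) (X : ℝ) :
    Set (Projectivization K (Fin 2 → K)) :=
  {P | (∀ l, P.rep 0 * α l 1 - P.rep 1 * α l 0 ≠ 0) ∧ counting T α P.rep ≤ Real.log X}

/-- **All heights: asymptotic formula with the law of the defect.** Let `K` be a number field of degree `d`, `T` a finite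
set of primes of `K`, `q ≥ 3` and `α_1, …, α_q` distinct points of the projective line over `K`. Consider all points `P`,
different from all the `α_l`, of whatever height, with `∑_{v ∉ T} ∑_l λ⁽¹⁾_v(α_l, P) ≤ log X`. There is a finite measure `μ`
on the real line, not zero, such that for every bounded continuous `f` the sum of `f` at the defects
`q h(P) - ∑_{v ∉ T} ∑_l λ⁽¹⁾_v(α_l, P)` of these points is `(∫ f dμ + o(1)) X ^ (2 d / q)`; in particular the number of
these points is `(μ(ℝ) + o(1)) X ^ (2 d / q)`. And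
`log μ((t, ∞)) = - (1 - 2 / q) d t + (√(8 q d) + o(1)) √(t / log t)` for `t → ∞`. -/
theorem result : ∀ (K : Type) [Field K] [NumberField K] (T : Set (HeightOneSpectrum (𝓞 K))),
    T.Finite → ∀ (q : ℕ), 3 ≤ q → ∀ (α : Fin q → Fin 2 → K),
      (∀ i j, i ≠ j → α i 0 * α j 1 - α i 1 * α j 0 ≠ 0) →
      (∀ X : ℝ, 1 ≤ X → (Points T α X).Finite) ∧
      ∃ μ : Measure ℝ, IsFiniteMeasure μ ∧ 0 < μ.real Set.univ ∧
        (∀ f : ℝ → ℝ, Continuous f → (∃ M : ℝ, ∀ x, |f x| ≤ M) →
          Tendsto (fun X : ℝ => (∑ᶠ P ∈ Points T α X, f (defect T α P)) /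
            X ^ (2 * (Module.finrank ℚ K : ℝ) / (q : ℝ))) atTop (𝓝 (∫ x, f x ∂μ))) ∧
        Tendsto (fun t : ℝ => (Real.log (μ.real (Set.Ioi t)) +
          (1 - 2 / (q : ℝ)) * (Module.finrank ℚ K : ℝ) * t) / √(t / Real.log t)) atTop
          (𝓝 √(8 * (q : ℝ) * (Module.finrank ℚ K : ℝ))) := by
  intro K _ _ T hT q hq α hα
  have ha0 : ∀ i, α i ≠ 0 := by
    intro i h
    obtain ⟨j, hj⟩ : ∃ j : Fin q, i ≠ j := by
      by_cases h : i = ⟨0, by omega⟩
      · refine ⟨⟨1, by omega⟩, ?_⟩
        rw [h]
        intro h'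
        have := congrArg Fin.val h'
        simp at this
      · exact ⟨_, h⟩
    apply hα i j hj
    rw [h]
    simp
  obtain ⟨h1, h2⟩ := Pool.Agent.L5helper9.counting_law hT hq ha0 hα (A := Points T α)
    (fun X _ => rfl)
  exact ⟨fun X hX => h1 X (by linarith), h2⟩

end Pool.Agent.Results.MP_4d5ce1_nt.AllHeightsLaw
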