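import Mathlib
import Pool.Agent.N906.QP.All

/-!
# The joint law of the single truncated counting functions of the points of the projective line, to second order:
# the counting functions of different points behave independently

`K` is a number field of degree `d`, `α_1, ..., α_q` are different points of `P¹(K)`, `T` is a finite set of
primes and `κ_1, ..., κ_q ≥ 0`, not all zero, with sum `κ`. Let `κ < 1` if `q = 3` (the case of the abc
conjecture) and `κ < 6/7` in general. The number `V(B)` of the points `x` of `P¹(K)` of height at most `B`,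
different from the `α_l`, which satisfy `N_T(α_l, x) ≤ (1 - κ_l) h(x) + c` for EVERY `l` is

  `log V(B) = d (2 - κ) log B + (∑_l √(8 κ_l d) + o(1)) √(log B / log log B)`.

Both terms are additive in `κ_1, ..., κ_q`: up to the second order the `q` truncated counting functions
behave like independent variables. For `K = ℚ` and the points `0, ∞, -1` these are the radicals of the
three members of an abc triple.
-/

set_option autoImplicit false

namespace Pool.Agent.Results.MP_4d5ce1_nt.JointSecondOrder

open NumberField IsDedekindDomain Filter Topology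

section

variable {K : Type} [Field K] [NumberField K]

/-- the absolute logarithmic height of a point (`Height.logHeight` is relative to `K`) -/
noncomputable def height (x : Projectivization K (Fin 2 → K)) : ℝ :=
  Height.logHeight x.rep / (Module.finrank ℚ K : ℝ)

/-- the local height `λ_v(a, x)` for a prime `v`:
`log (max |x_i|_v max |a_i|_v / |x_0 a_1 - x_1 a_0|_v)`, with the absolute values of `K` normalised relative to `K`, divided
by `[K : ℚ]` -/
noncomputable def localHeight (v : HeightOneSpectrum (𝓞 K)) (a : Fin 2 → K)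
    (x : Projectivization K (Fin 2 → K)) : ℝ :=
  Real.log (max (FinitePlace.mk v (x.rep 0)) (FinitePlace.mk v (x.rep 1)) *
    max (FinitePlace.mk v (a 0)) (FinitePlace.mk v (a 1)) /
      FinitePlace.mk v (x.rep 0 * a 1 - x.rep 1 * a 0)) / (Module.finrank ℚ K : ℝ)

/-- the counting function `N_T(a, x)` of one point `a`, the sum over the primes `v` outside `T` of the truncated local
heights `min (λ_v(a, x), log N(v) / [K : ℚ])` -/
noncomputable def counting (T : Set (HeightOneSpectrum (𝓞 K))) (a : Fin 2 → K)
    (x : Projectivization K (Fin 2 → K)) : ℝ :=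
  ∑ᶠ (v : HeightOneSpectrum (𝓞 K)) (_ : v ∉ T),
    min (localHeight v a x) (Real.log (Ideal.absNorm v.asIdeal : ℝ) / (Module.finrank ℚ K : ℝ))

/-- the points `x` different from the `α_l`, of height at most `B`, with `N_T(α_l, x) ≤ (1 - κ_l) h(x) + c` for every `l` -/
def Points (T : Set (HeightOneSpectrum (𝓞 K))) {q : ℕ} (α : Fin q → Fin 2 → K) (κ : Fin q → ℝ) (c B : ℝ) :
    Set (Projectivization K (Fin 2 → K)) :=
  {x | (∀ l, x.rep 0 * α l 1 - x.rep 1 * α l 0 ≠ 0) ∧ Real.exp (height x) ≤ B ∧
    ∀ l, counting T (α l) x ≤ (1 - κ l) * height x + c}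

end

/-- **Theorem.** Let `K` be a number field of degree `d`, `T` a finite set of primes, `α_1, ..., α_q` (`q ≥ 2`)
different points of `P¹(K)`, `c` real and `κ_1, ..., κ_q ≥ 0` with a sum `κ > 0`, where `κ < 6/7`, or `q = 3` and `κ < 1`. The
number `V(B)` of the points `x` of `P¹(K)` different from the `α_l`, of height at most `B`, with
`N_T(α_l, x) ≤ (1 - κ_l) h(x) + c` for all `l` is finite, and
`(log V(B) - d (2 - κ) log B) / √(log B / log log B)` tends to `∑_l √(8 κ_l d)`. -/
theorem result : ∀ (K : Type) [Field K] [NumberField K] (q : ℕ) (T : Set (HeightOneSpectrum (𝓞 K)))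
    (α : Fin q → Fin 2 → K) (κ : Fin q → ℝ) (c : ℝ), T.Finite → 2 ≤ q → (∀ l, α l ≠ 0) →
    (∀ l l', l ≠ l' → α l 0 * α l' 1 - α l 1 * α l' 0 ≠ 0) → (∀ l, 0 ≤ κ l) → 0 < ∑ l, κ l →
    (∑ l, κ l < 6 / 7 ∨ q = 3 ∧ ∑ l, κ l < 1) →
    (∀ B : ℝ, (Points T α κ c B).Finite) ∧
    Tendsto (fun B : ℝ => (Real.log ((Points T α κ c B).ncard : ℝ) -
        Module.finrank ℚ K * (2 - ∑ l, κ l) * Real.log B) /
      √(Real.log B / Real.log (Real.log B))) atTop
      (𝓝 (∑ l, √(8 * κ l * Module.finrank ℚ K))) := by
  intro K _ _ q T α κ c hT hq hα hα' hκ0 hκp hκ1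
  rcases hκ1 with h | ⟨rfl, h⟩
  · exact Pool.Agent.N906.KG.finj_all K q hq T α κ c hT hq hα hα' hκ0 hκp h (by linarith)
  · exact Pool.Agent.N906.KG.finj_three K T α κ c hT hq hα hα' hκ0 hκp h h

end Pool.Agent.Results.MP_4d5ce1_nt.JointSecondOrder
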