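import Pool.Agent.L5helper9.Fin1

/-!
# The abc conjecture for finite subsets of the projective line over a number field: the limit law of the defect for the
points ordered by height

`K` is a number field of degree `d`, `T` a finite set of primes, `α_1, …, α_q` are `q ≥ 2` distinct points of the
projective line over `K`.
-/

set_option autoImplicit false

namespace Pool.Agent.Results.MP_4d5ce1_nt.LimitLawByHeight

open NumberField IsDedekindDomain Filter Topology MeasureTheory

variable {K : Type} [Field K] [NumberField K]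

/-- the absolute logarithmic height of a point (the height of Mathlib is relative to `K`) -/
noncomputable def height (P : Projectivization K (Fin 2 → K)) : ℝ :=
  Height.logHeight P.rep / (Module.finrank ℚ K : ℝ)

/-- the sum over the primes `v ∉ T` and over `l` of the truncated local heights
`λ⁽¹⁾_v(α_l, x) = min (λ_v(α_l, x), log N(v) / d)` -/
noncomputable def counting (T : Set (HeightOneSpectrum (𝓞 K))) {q : ℕ} (α : Fin q → Fin 2 → K)
    (x : Fin 2 → K) : ℝ :=
  ∑ᶠ (v : HeightOneSpectrum (𝓞 K)) (_ : v ∉ T), ∑ l : Fin q,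
    min
      (Real.log
          (max (FinitePlace.mk v (x 0)) (FinitePlace.mk v (x 1)) *
            max (FinitePlace.mk v (α l 0)) (FinitePlace.mk v (α l 1)) /
            FinitePlace.mk v (x 0 * α l 1 - x 1 * α l 0)) /
        (Module.finrank ℚ K : ℝ))
      (Real.log (Ideal.absNorm v.asIdeal : ℝ) / (Module.finrank ℚ K : ℝ))

/-- the defect `q h(P) - ∑_{v ∉ T} ∑_l λ⁽¹⁾_v(α_l, P)` -/
noncomputable def defect (T : Set (HeightOneSpectrum (𝓞 K))) {q : ℕ} (α : Fin q → Fin 2 → K)
    (P : Projectivization K (Fin 2 → K)) : ℝ :=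
  q * height P - counting T α P.rep

/-- the points `P` of the projective line over `K`, different from all the `α_l`, of height `h(P) ≤ log B` -/
def Points {q : ℕ} (α : Fin q → Fin 2 → K) (B : ℝ) : Set (Projectivization K (Fin 2 → K)) :=
  {P | (∀ l, P.rep 0 * α l 1 - P.rep 1 * α l 0 ≠ 0) ∧ height P ≤ Real.log B}

/-- **The limit law of the defect for the points ordered by height.** Let `K` be a number field of degree `d`, `T` a
finite set of primes of `K`, `q ≥ 2` and `α_1, …, α_q` distinct points of the projective line over `K`. The defects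
`q h(P) - ∑_{v ∉ T} ∑_l λ⁽¹⁾_v(α_l, P)` of the points `P` of height at most `log B`, different from all the `α_l`, have
for `B → ∞` a limit law `ν`, a probability measure on the real line, and
`log ν((t, ∞)) = - d t + (√(8 q d) + o(1)) √(t / log t)` for `t → ∞`. -/
theorem result : ∀ (K : Type) [Field K] [NumberField K] (T : Set (HeightOneSpectrum (𝓞 K))),
    T.Finite → ∀ (q : ℕ), 2 ≤ q → ∀ (α : Fin q → Fin 2 → K),
      (∀ i j, i ≠ j → α i 0 * α j 1 - α i 1 * α j 0 ≠ 0) →
      (∀ B : ℝ, 1 ≤ B → (Points α B).Finite) ∧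
      ∃ ν : Measure ℝ, IsProbabilityMeasure ν ∧
        (∀ f : ℝ → ℝ, Continuous f → (∃ M : ℝ, ∀ x, |f x| ≤ M) →
          Tendsto (fun B : ℝ => (∑ᶠ P ∈ Points α B, f (defect T α P)) /
            ((Points α B).ncard : ℝ)) atTop (𝓝 (∫ x, f x ∂ν))) ∧
        Tendsto (fun t : ℝ => (Real.log (ν.real (Set.Ioi t)) +
          (Module.finrank ℚ K : ℝ) * t) / √(t / Real.log t)) atTop
          (𝓝 √(8 * (q : ℝ) * (Module.finrank ℚ K : ℝ))) := by
  intro K _ _ T hT q hq α hα
  have ha0 : ∀ i, α i ≠ 0 := by
    intro i h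
    obtain ⟨j, hj⟩ : ∃ j : Fin q, i ≠ j := by
      by_cases h : i = ⟨0, by omega⟩
      · refine ⟨⟨1, by omega⟩, ?_⟩
        rw [h]
        intro h'
        have := congrArg Fin.val h'
        simp at this
      · exact ⟨_, h⟩
    apply hα i j hj
    rw [h]
    simp
  have hset : ∀ B : ℝ, 0 < B → Pool.Agent.L5helper9.vl α ''
      {P | Pool.Agent.N906.EQ.rho (Pool.Agent.L5helper9.Lf α) P ≤ B} = Points α B := by
    intro B hB
    have hiff : ∀ P : Pool.Agent.N906.EQ.Om (Pool.Agent.L5helper9.Lf α),
        Pool.Agent.N906.EQ.rho (Pool.Agent.L5helper9.Lf α) P ≤ B ↔ height P.1 ≤ Real.log B := by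
      intro P
      rw [Pool.Agent.L5helper9.rho_eq, ← Real.le_log_iff_exp_le hB]
      rfl
    ext P
    constructor
    · rintro ⟨Q, hQ, rfl⟩
      exact ⟨(Pool.Agent.L5helper9.off_iff α _).2 Q.2, (hiff Q).1 hQ⟩
    · rintro ⟨h1, h2⟩
      exact ⟨⟨P, (Pool.Agent.L5helper9.off_iff α P).1 h1⟩, (hiff _).2 h2, rfl⟩
  exact ⟨fun B hB => Pool.Agent.L5helper9.fin_set (Pool.Agent.L5helper9.rho_fin α)
    (hset B (by linarith)), Pool.Agent.L5helper9.height_law hT hq ha0 hα hset⟩

end Pool.Agent.Results.MP_4d5ce1_nt.LimitLawByHeight
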