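import Pool.Agent.L5helper17.DR.Fin

/-!
# Vojta's inequality for almost all points of degree `r` of the projective line, for all number
# fields, all finite sets of primes and all finite subsets at once

`K` is a number field, `r ≥ 1`. One set `E` of points of degree `r` over `K`, a proportion
`O(exp (-√U))` of the points of relative height at most `U`, serves all number fields `k`
containing `K`, all finite sets `S` of primes of `k`, all `ε > 0` and all finite subsets
`α_1, …, α_q` of the projective line over `k` whose points have degree at most `2 r + 1` over `K`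
(for `[k : K] ≤ 2 r + 1`: all finite subsets of the line over `k`).
-/

set_option autoImplicit false

namespace Pool.Agent.Results.MP_4d5ce1_nt.PointsOfEveryDegree

open NumberField IsDedekindDomain Module

/-- the absolute logarithmic height of the point `[x : 1]` of the line over `M` (the height of
Mathlib is relative to `M`) -/
noncomputable def height {M : Type} [Field M] [NumberField M] (x : M) : ℝ :=
  Height.logHeight₁ x / (finrank ℚ M : ℝ)

/-- the sum over the primes `w` of `M` which do not lie above a prime in `S` and over `l` of the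
truncated local heights `λ⁽¹⁾_w(α_l, x) = min (λ_w(α_l, x), log N(w) / [M : ℚ])`, where the `α_l`
are points of the line over `k` and `x` stands for the point `[x : 1]` of the line over `M ⊇ k` -/
noncomputable def counting {k M : Type} [Field k] [NumberField k] [Field M] [NumberField M]
    [Algebra k M] (S : Set (HeightOneSpectrum (𝓞 k))) {q : ℕ} (α : Fin q → Fin 2 → k) (x : M) : ℝ :=
  ∑ᶠ (w : HeightOneSpectrum (𝓞 M)) (_ : ∀ v ∈ S, ¬ w.asIdeal.LiesOver v.asIdeal), ∑ l : Fin q,
    min
      (Real.log
          (max (FinitePlace.mk w x) 1 *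
            max (FinitePlace.mk w (algebraMap k M (α l 0)))
              (FinitePlace.mk w (algebraMap k M (α l 1))) /
            FinitePlace.mk w (x * algebraMap k M (α l 1) - algebraMap k M (α l 0))) /
        (finrank ℚ M : ℝ))
      (Real.log (Ideal.absNorm w.asIdeal : ℝ) / (finrank ℚ M : ℝ))

/-- the degree over `K` of the point `α` of the projective line over `k` -/
noncomputable def degree (K : Type) [Field K] {k : Type} [Field k] [Algebra K k]
    (α : Fin 2 → k) : ℕ := (minpoly K (α 0 / α 1)).natDegree

/-- `p` is the minimal polynomial over `K` of a number `x` of degree `r` over `K` (which generates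
the field `M = K(x)`) of absolute logarithmic height at most `H` -/
def PointOf (K : Type) [Field K] [NumberField K] (r : ℕ) (H : ℝ) (p : Polynomial K) : Prop :=
  ∃ (M : Type) (_ : Field M) (_ : NumberField M) (_ : Algebra K M) (x : M),
    finrank K M = r ∧ (minpoly K x).natDegree = r ∧ minpoly K x = p ∧ height x ≤ H

section

open Pool.Agent.L5helper17.DR Pool.Agent.L5helper17.Cnt Pool.Agent.H691R3 Pool.Agent.TH876.Loc
open Pool.Agent.N753.DR (AtH)

theorem pointOf_iff {K : Type} [Field K] [NumberField K] {r : ℕ} (H : ℝ) (p : Polynomial K) :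
    PointOf K r H p ↔ AtH r ((finrank ℚ K : ℝ) * r * H) p := by
  have key : ∀ (M : Type) [Field M] [NumberField M] [Algebra K M] (x : M), finrank K M = r →
      (height x ≤ H ↔ Height.logHeight₁ x ≤ (finrank ℚ K : ℝ) * r * H) := by
    intro M _ _ _ x h
    have hfd : FiniteDimensional K M := Module.Finite.of_restrictScalars_finite ℚ K M
    have h1 : (finrank ℚ M : ℝ) = (finrank ℚ K : ℝ) * r := by
      rw [← Module.finrank_mul_finrank ℚ K M, h]
      push_cast
      ring
    have h2 : (0 : ℝ) < finrank ℚ M := by exact_mod_cast (Module.finrank_pos (R := ℚ) (M := M))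
    unfold height
    rw [div_le_iff₀ h2, h1, mul_comm H]
  constructor
  · rintro ⟨M, i1, i2, i3, x, h1, h2, h3, h4⟩
    exact ⟨M, i1, i2, i3, x, h1, h2, h3, (key M x h1).1 h4⟩
  · rintro ⟨M, i1, i2, i3, x, h1, h2, h3, h4⟩
    exact ⟨M, i1, i2, i3, x, h1, h2, h3, (key M x h1).2 h4⟩

theorem counting_eq {k M : Type} [Field k] [NumberField k] [Field M] [NumberField M]
    [Algebra k M] (S : Set (HeightOneSpectrum (𝓞 k))) {q : ℕ} (α : Fin q → Fin 2 → k) (x : M) :
    (finrank ℚ M : ℝ) * counting S α x = cnt (up M S) (ex M α) ![x, 1] := by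
  classical
  have hd : (0 : ℝ) < finrank ℚ M := by exact_mod_cast (Module.finrank_pos (R := ℚ) (M := M))
  unfold counting cnt
  rw [mul_finsum]
  refine finsum_congr fun w => ?_
  rw [finsum_eq_if, finsum_eq_if]
  have hiff : (∀ v ∈ S, ¬ w.asIdeal.LiesOver v.asIdeal) ↔ w ∉ up M S := by
    show _ ↔ ¬ ∃ v ∈ S, w.asIdeal.LiesOver v.asIdeal
    push Not
    rfl
  by_cases hw : w ∉ up M S
  · rw [if_pos hw, if_pos (hiff.2 hw)]
    rw [Finset.mul_sum]
    refine Finset.sum_congr rfl fun l _ => ?_
    rw [mul_min_of_nonneg _ _ hd.le, mul_div_cancel₀ _ hd.ne', mul_div_cancel₀ _ hd.ne']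
    have e : x * algebraMap k M (α l 1) - algebraMap k M (α l 0) =
        -Pool.Agent.TH876.KR.form (ex M α l) ![x, 1] := by
      show _ = -(algebraMap k M (α l 0) * 1 - algebraMap k M (α l 1) * x)
      ring
    have e2 : FinitePlace.mk w (x * algebraMap k M (α l 1) - algebraMap k M (α l 0)) =
        FinitePlace.mk w (Pool.Agent.TH876.KR.form (ex M α l) ![x, 1]) := by
      rw [e]
      exact (FinitePlace.mk w).1.map_neg _
    have e3 : (1 : ℝ) = FinitePlace.mk w (1 : M) := (map_one (FinitePlace.mk w)).symm
    rw [e2, mul_comm (max (FinitePlace.mk w x) 1)]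
    nth_rewrite 1 [e3]
    rfl
  · rw [if_neg hw, if_neg (fun h => hw (hiff.1 h)), mul_zero]

theorem form_iff {k M : Type} [Field k] [NumberField k] [Field M] [NumberField M] [Algebra k M]
    {q : ℕ} (α : Fin q → Fin 2 → k) (x : M) :
    (∀ l, x * algebraMap k M (α l 1) - algebraMap k M (α l 0) ≠ 0) ↔
      ∀ j, Pool.Agent.TH876.KR.form (ex M α j) ![x, 1] ≠ 0 := by
  refine forall_congr' fun l => ?_
  have e : x * algebraMap k M (α l 1) - algebraMap k M (α l 0) =
      -Pool.Agent.TH876.KR.form (ex M α l) ![x, 1] := by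
    show _ = -(algebraMap k M (α l 0) * 1 - algebraMap k M (α l 1) * x)
    ring
  rw [e, Ne, neg_eq_zero]

end

/-- **Almost all points of degree `r`.** Let `K` be a number field of degree `n` and `r ≥ 1`. There
is a set `E` of points of degree `r` over `K` (given by their minimal polynomials) such that:
(1) `E` contains at most `2 exp(n r (r + 1) H - √(n r H))` points of absolute logarithmic height
at most `H`, for all `H ≥ 0`;
(2) altogether there are at least `c exp(n r (r + 1) H)` such points, for all large `H`, `c > 0`;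
(3) let `k` be any number field containing `K`, `S` a finite set of primes of `k`, `α_1, …, α_q`
distinct points of the projective line over `k` of degree at most `2 r + 1` over `K`, and `ε > 0`.
Then there is `C` such that for all number fields `M` containing `k` and all `x` in `M` with
`M = k(x)` which are of degree `r` over `K`, not in `E` and different from the `α_l`:
`(q - ε) h(x) ≤ ∑_{w ∤ S} ∑_l λ⁽¹⁾_w(α_l, x) + C`
(in particular for `M = k`: all `x` in `k` of degree `r` over `K` outside `E`);
(4) the coefficient `q` is best possible: the right hand side is at most `q h(x) + C'` for all number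
fields `M` containing `k` and all `x` in `M`, for all `α_1, …, α_q`. -/
theorem result (K : Type) [Field K] [NumberField K] (r : ℕ) (hr : 1 ≤ r) :
    ∃ E : Set (Polynomial K),
      (∀ H : ℝ, 0 ≤ H → {p | p ∈ E ∧ PointOf K r H p}.Finite ∧
        ({p | p ∈ E ∧ PointOf K r H p}.ncard : ℝ) ≤
          2 * Real.exp ((finrank ℚ K : ℝ) * r * (r + 1) * H - √((finrank ℚ K : ℝ) * r * H))) ∧
      (∃ c H₀ : ℝ, 0 < c ∧ ∀ H : ℝ, H₀ ≤ H → ∃ T : Finset (Polynomial K),
        (∀ p ∈ T, PointOf K r H p) ∧
        c * Real.exp ((finrank ℚ K : ℝ) * r * (r + 1) * H) ≤ T.card) ∧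
      ∀ (k : Type) [Field k] [NumberField k] [Algebra K k]
        (S : Set (HeightOneSpectrum (𝓞 k))) (q : ℕ) (α : Fin q → Fin 2 → k), S.Finite →
        (∀ i, α i ≠ 0) → (∀ i j, i ≠ j → α i 0 * α j 1 - α i 1 * α j 0 ≠ 0) →
        (∃ C : ℝ, ∀ (M : Type) [Field M] [NumberField M] [Algebra k M] (x : M),
          (∀ l, x * algebraMap k M (α l 1) - algebraMap k M (α l 0) ≠ 0) →
          counting S α x ≤ q * height x + C) ∧
        ((∀ i, degree K (α i) ≤ 2 * r + 1) → ∀ ε : ℝ, 0 < ε →
          ∃ C : ℝ, ∀ (M : Type) [Field M] [NumberField M] [Algebra K M] [Algebra k M]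
            [IsScalarTower K k M] (x : M), IntermediateField.adjoin k {x} = ⊤ →
            (minpoly K x).natDegree = r → minpoly K x ∉ E →
            (∀ l, x * algebraMap k M (α l 1) - algebraMap k M (α l 0) ≠ 0) →
            (q - ε) * height x ≤ counting S α x + C) := by
  obtain ⟨E, hE, hmain⟩ := Pool.Agent.L5helper17.DR.lower K r hr
  have hn0 : (0 : ℝ) < finrank ℚ K := by exact_mod_cast (Module.finrank_pos (R := ℚ) (M := K))
  have hr0 : (0 : ℝ) < r := by exact_mod_cast hr
  refine ⟨E, fun H hH => ?_, ?_, ?_⟩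
  · have h1 := hE ((finrank ℚ K : ℝ) * r * H) (by positivity)
    have e1 : {p | p ∈ E ∧ PointOf K r H p} =
        {p | p ∈ E ∧ Pool.Agent.N753.DR.AtH r ((finrank ℚ K : ℝ) * r * H) p} := by
      ext p
      simp only [Set.mem_ofPred_eq, pointOf_iff]
    rw [e1]
    refine ⟨h1.1, h1.2.trans (le_of_eq ?_)⟩
    congr 2
    ring
  · obtain ⟨c, U₀, hc, h⟩ := Pool.Agent.N31.FR.t K r hr
    refine ⟨c, U₀ / ((finrank ℚ K : ℝ) * r), hc, fun H hH => ?_⟩
    rw [div_le_iff₀ (by positivity)] at hH
    obtain ⟨T, hT, hTc⟩ := h ((finrank ℚ K : ℝ) * r * H) (by linarith)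
    refine ⟨T, fun p hp => (pointOf_iff H p).2 (hT p hp), ?_⟩
    have e : (finrank ℚ K : ℝ) * r * (r + 1) * H = (r + 1) * ((finrank ℚ K : ℝ) * r * H) := by ring
    rw [e]
    exact hTc
  intro k _ _ _ S q α hS hα0 hα
  rcases Nat.eq_zero_or_pos q with hq | hq
  · subst hq
    have hh : ∀ (M : Type) [Field M] [NumberField M] (x : M), 0 ≤ height x := fun M _ _ x =>
      div_nonneg (Height.zero_le_logHeight₁ x) (Nat.cast_nonneg _)
    have hc : ∀ (M : Type) [Field M] [NumberField M] [Algebra k M] (x : M),
        counting S α x = 0 := by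
      intro M _ _ _ x
      unfold counting
      simp
    refine ⟨⟨0, fun M _ _ _ x _ => ?_⟩, fun _ ε hε => ⟨0, fun M _ _ _ _ _ x _ _ _ _ => ?_⟩⟩
    · rw [hc]
      simp
    · rw [hc]
      have := hh M x
      simp only [Nat.cast_zero]
      nlinarith
  refine ⟨?_, ?_⟩
  · obtain ⟨C, hC, h⟩ := Pool.Agent.L5helper17.DR.upper k S q hq α
    refine ⟨C, fun M _ _ _ x hx => ?_⟩
    have hd : (0 : ℝ) < finrank ℚ M := by exact_mod_cast (Module.finrank_pos (R := ℚ) (M := M))
    have h1 := h M x ((form_iff α x).1 hx)
    rw [← counting_eq] at h1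
    refine le_of_mul_le_mul_left (h1.trans_eq ?_) hd
    unfold height
    field_simp
  · intro hdeg ε hε
    obtain ⟨C, hC, h⟩ := hmain k S q α hS hq hα0 hα hdeg ε hε
    refine ⟨C, fun M _ _ _ _ _ x hx hxr hxE hxf => ?_⟩
    have hd : (0 : ℝ) < finrank ℚ M := by exact_mod_cast (Module.finrank_pos (R := ℚ) (M := M))
    have h1 := h M x hx hxr hxE ((form_iff α x).1 hxf)
    rw [← counting_eq] at h1
    have hfin : (finrank k M : ℝ) ≤ finrank ℚ M := by
      have hfd : FiniteDimensional k M := Module.Finite.of_restrictScalars_finite ℚ k M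
      have h1 : finrank k M ≤ finrank ℚ M := by
        rw [← Module.finrank_mul_finrank ℚ k M]
        exact Nat.le_mul_of_pos_left _ Module.finrank_pos
      exact_mod_cast h1
    refine le_of_mul_le_mul_left ?_ hd
    have e1 : (finrank ℚ M : ℝ) * ((q - ε) * height x) = (q - ε) * Height.logHeight₁ x := by
      unfold height
      field_simp
    rw [e1]
    have h2 : (finrank k M : ℝ) * C ≤ finrank ℚ M * C := mul_le_mul_of_nonneg_right hfin hC
    linarith

end Pool.Agent.Results.MP_4d5ce1_nt.PointsOfEveryDegree
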